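import Pool.Agent.Lib.MP_78e117_co.Stmts

/-!
# MP_78e117_co, module Count

`count : StmtCount`: some choice of the shift `c` makes the family large (averaging over `c`).
-/

set_option autoImplicit false

namespace Pool.Agent.Lib.MP_78e117_co

namespace CountAux

/-- the size of the main level as a function of the size of the special part -/
def lv (m k : ℕ) : ℕ := if k = 0 then m - 1 else m - k

lemma lev_eq (m : ℕ) (P : Finset (Fin 3)) : lev m P = lv m P.card := by
  unfold lev lv
  by_cases h : P = ∅
  · simp [h]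
  · have h' : P.card ≠ 0 := by simpa [Finset.card_eq_zero] using h
    simp [h, h']

lemma cod_unique {N : ℕ} (P : Finset (Fin 3)) (x : ZMod (N + 4)) :
    ∃! c : ZMod (N + 4), x = cod c P := by
  have key : ∃ t : ZMod (N + 4), ∀ c : ZMod (N + 4), cod c P = c + t := by
    unfold cod
    split_ifs
    · exact ⟨2 * N + 3, fun c => by ring⟩
    · exact ⟨N, fun c => by ring⟩
    · exact ⟨N + 1, fun c => by ring⟩
    · exact ⟨N + 2, fun c => by ring⟩
    · exact ⟨0, fun c => by ring⟩
  obtain ⟨t, ht⟩ := key
  refine ⟨x - t, ?_, ?_⟩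
  · simp [ht]
  · intro c hc
    simp only [ht] at hc
    rw [hc]; ring

/-- the number of sets of size `k` -/
lemma card_size (N k : ℕ) :
    (Finset.univ.filter fun R : Finset (Fin N) => R.card = k).card = N.choose k := by
  have : (Finset.univ.filter fun R : Finset (Fin N) => R.card = k)
      = Finset.powersetCard k Finset.univ := by
    ext R
    simp [Finset.mem_powersetCard]
  rw [this, Finset.card_powersetCard, Finset.card_univ, Fintype.card_fin]

/-- the number of sets of size `k - 1` -/
def pc (N k : ℕ) : ℕ := if k = 0 then 0 else N.choose (k - 1)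

lemma card_size' (N k : ℕ) :
    (Finset.univ.filter fun R : Finset (Fin N) => R.card + 1 = k).card = pc N k := by
  unfold pc
  rcases Nat.eq_zero_or_pos k with h | h
  · subst h
    simp
  · rw [if_neg (by omega), ← card_size N (k - 1)]
    congr 1
    ext R
    simp only [Finset.mem_filter, Finset.mem_univ, true_and]
    omega

open Classical in
lemma card_fam (m N : ℕ) (c : ZMod (N + 4)) :
    (fam m N c).card = ∑ P : Finset (Fin 3),
      ((Finset.univ.filter fun R : Finset (Fin N) => R.card = lev m P).card
      + (Finset.univ.filter fun R : Finset (Fin N) =>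
          P.card ≠ 1 ∧ R.card + 1 = lev m P ∧ lab R = cod c P).card) := by
  have h1 : (fam m N c).card
      = (Finset.univ.filter fun q : Finset (Fin 3) × Finset (Fin N) => Mem m N c q.1 q.2).card := by
    unfold fam
    refine Finset.card_bij (fun T _ => (T.toLeft, T.toRight)) ?_ ?_ ?_
    · intro T hT
      simpa using hT
    · intro S _ T _ h
      simp only [Prod.mk.injEq] at h
      exact (Finset.sumEquiv (α := Fin 3) (β := Fin N)).injective (Prod.ext h.1 h.2)
    · intro q hq
      refine ⟨Finset.disjSum q.1 q.2, ?_, ?_⟩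
      · simpa using hq
      · simp
  rw [h1]
  rw [Finset.card_filter, Fintype.sum_prod_type]
  refine Finset.sum_congr rfl fun P _ => ?_
  rw [← Finset.card_filter]
  rw [← Finset.card_union_of_disjoint]
  · congr 1
    ext R
    simp only [Finset.mem_filter, Finset.mem_univ, true_and, Finset.mem_union, Mem]
  · rw [Finset.disjoint_filter]
    rintro R _ h ⟨_, h2, _⟩
    omega

open Classical in
lemma sum_code (m N : ℕ) (P : Finset (Fin 3)) :
    ∑ c : ZMod (N + 4), (Finset.univ.filter fun R : Finset (Fin N) =>
          P.card ≠ 1 ∧ R.card + 1 = lev m P ∧ lab R = cod c P).card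
      = if P.card = 1 then 0 else pc N (lev m P) := by
  by_cases h : P.card = 1
  · simp [h]
  · rw [if_neg h, ← card_size']
    simp only [Finset.card_filter]
    rw [Finset.sum_comm]
    refine Finset.sum_congr rfl fun R _ => ?_
    by_cases h2 : R.card + 1 = lev m P
    · simp only [h2, ne_eq, h, not_false_eq_true, true_and, if_true]
      obtain ⟨c0, hc0, hu⟩ := cod_unique P (lab R)
      rw [Finset.sum_eq_single c0]
      · simp [← hc0]
      · intro c _ hc
        rw [if_neg]
        intro h3
        exact hc (hu c h3)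
      · intro h3
        exact absurd (Finset.mem_univ _) h3
    · simp [h2]

open Classical in
lemma sum_fam (m N : ℕ) :
    ∑ c : ZMod (N + 4), (fam m N c).card
      = (N + 4) * (∑ P : Finset (Fin 3), N.choose (lev m P))
        + ∑ P : Finset (Fin 3), if P.card = 1 then 0 else pc N (lev m P) := by
  simp only [card_fam, card_size]
  rw [Finset.sum_comm]
  simp only [Finset.sum_add_distrib, sum_code]
  rw [Finset.mul_sum]
  congr 1
  refine Finset.sum_congr rfl fun P _ => ?_
  simp [ZMod.card]

/-- sum over the eight special sets of a function of the size -/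
lemma sum_special (f : ℕ → ℕ) :
    ∑ P : Finset (Fin 3), f P.card = f 0 + 3 * f 1 + 3 * f 2 + f 3 := by
  have h := Finset.sum_powerset_apply_card f (x := (Finset.univ : Finset (Fin 3)))
  rw [Finset.powerset_univ] at h
  rw [h]
  simp [Finset.sum_range_succ, Nat.choose]

lemma sum_main (m N : ℕ) :
    ∑ P : Finset (Fin 3), N.choose (lev m P)
      = N.choose (m - 1) + 3 * N.choose (m - 1) + 3 * N.choose (m - 2) + N.choose (m - 3) := by
  simp only [lev_eq]
  rw [sum_special (fun k => N.choose (lv m k))]
  simp [lv]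

lemma sum_code' (m N : ℕ) :
    (∑ P : Finset (Fin 3), if P.card = 1 then 0 else pc N (lev m P))
      = pc N (m - 1) + 3 * pc N (m - 2) + pc N (m - 3) := by
  simp only [lev_eq]
  rw [sum_special (fun k => if k = 1 then 0 else pc N (lv m k))]
  simp [lv]

lemma choose1 (k : ℕ) : (2 * k + 3).choose (k + 2) = (2 * k + 3).choose (k + 1) := by
  have := Nat.choose_symm_half (k + 1)
  simpa [two_mul, add_assoc, add_comm, add_left_comm, Nat.mul_add] using this

lemma choose2 (k : ℕ) :
    (2 * k + 3).choose (k + 1) * (k + 1) = (2 * k + 3).choose k * (k + 3) := by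
  rw [Nat.choose_succ_right_eq]
  congr 1
  omega

lemma choose3 (k : ℕ) :
    (2 * k + 3).choose k * k = pc (2 * k + 3) k * (k + 4) := by
  rcases k with _ | k
  · simp [pc]
  · simp only [pc, Nat.add_eq_zero_iff, one_ne_zero, and_false, if_false, Nat.add_sub_cancel]
    rw [Nat.choose_succ_right_eq]
    congr 1
    omega

end CountAux

open CountAux in
open Classical in
/-- **(Count)** -/
theorem count : StmtCount := by
  intro m N hm hN
  obtain ⟨k, rfl⟩ : ∃ k, m = k + 3 := ⟨m - 3, by omega⟩
  have hN' : N = 2 * k + 3 := by omega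
  subst hN'
  set N := 2 * k + 3 with hNdef
  have hs := sum_fam (k + 3) N
  rw [sum_main, sum_code'] at hs
  have e1 : k + 3 - 1 = k + 2 := by omega
  have e2 : k + 3 - 2 = k + 1 := by omega
  have e3 : k + 3 - 3 = k := by omega
  rw [e1, e2, e3] at hs
  have p1 : pc N (k + 2) = N.choose (k + 1) := by simp [pc]
  have p2 : pc N (k + 1) = N.choose k := by simp [pc]
  rw [p1, p2] at hs
  have c1 := choose1 k
  have c2 := choose2 k
  have c3 := choose3 k
  rw [← hNdef] at c1 c2 c3
  rw [c1] at hs
  rw [e1, c1]
  by_contra hcon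
  push Not at hcon
  set A : ℝ := (N.choose (k + 1) : ℝ) with hA
  set B : ℝ := (N.choose k : ℝ) with hB
  set C : ℝ := (pc N k : ℝ) with hC
  have r2 : A * (k + 1) = B * (k + 3) := by
    rw [hA, hB]; exact_mod_cast c2
  have r3 : B * k = C * (k + 4) := by
    rw [hB, hC]; exact_mod_cast c3
  have hk3 : (k : ℝ) + 3 ≠ 0 := by positivity
  have hk4 : (k : ℝ) + 4 ≠ 0 := by positivity
  have hBA : B = A * (k + 1) / (k + 3) := by
    field_simp
    linarith
  have hCA : C = A * (k + 1) * k / ((k + 3) * (k + 4)) := by
    have : C = B * k / (k + 4) := by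
      field_simp
      linarith
    rw [this, hBA]
    field_simp
  have hsr : (∑ c : ZMod (N + 4), ((fam (k + 3) N c).card : ℝ))
      = ((N : ℝ) + 4) * (A + 3 * A + 3 * A + B) + (A + 3 * B + C) := by
    have := congrArg (Nat.cast : ℕ → ℝ) hs
    push_cast at this
    rw [this]
  have hlt : (∑ c : ZMod (N + 4), ((fam (k + 3) N c).card : ℝ))
      < ∑ _c : ZMod (N + 4), ((((k + 3 : ℕ) : ℝ) - 1 / 2) * 8 / ((k + 3 : ℕ) : ℝ) * A
        + (2 / ((k + 3 : ℕ) : ℝ) + (5 * ((k + 3 : ℕ) : ℝ) - 7) / ((((k + 3 : ℕ) : ℝ) + 1)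
          * ((N : ℝ) + 4))) * A) := by
    refine Finset.sum_lt_sum_of_nonempty ⟨0, Finset.mem_univ _⟩ ?_
    intro c _
    exact hcon c
  rw [hsr] at hlt
  rw [Finset.sum_const, Finset.card_univ, ZMod.card, nsmul_eq_mul] at hlt
  refine absurd hlt (not_lt.mpr (le_of_eq ?_))
  rw [hBA, hCA]
  have hNr : (N : ℝ) = 2 * k + 3 := by rw [hNdef]; push_cast; ring
  push_cast
  rw [hNr]
  have h5 : (2 * (k : ℝ) + 3 + 4) ≠ 0 := by positivity
  have h6 : ((k : ℝ) + 3 + 1) ≠ 0 := by positivity
  field_simp
  ring

end Pool.Agent.Lib.MP_78e117_co
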