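import Pool.Agent.Lib.MP_78e117_co.Stmts

/-!
# MP_78e117_co: conclusion
-/

set_option autoImplicit false

namespace Pool.Agent.Lib.MP_78e117_co

open Finset

/-- the second order gain -/
noncomputable def gain (m : ℕ) : ℝ := (9 * m ^ 2 - m + 2) / (4 * (4 * m ^ 2 - 1) * (m + 1))

theorem Reach.mono {n : ℕ} {s t : ℝ} (h : Reach n t) (hst : s ≤ t) : Reach n s := by
  obtain ⟨L, i, h1, h2, h3⟩ := h
  exact ⟨L, i, h1, h2, hst.trans h3⟩

theorem choose_id (j : ℕ) : ((2 * (j + 3)).choose (j + 3) : ℝ) =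
    (((j + 3 : ℕ) : ℝ) - 1 / 2) * 8 / ((j + 3 : ℕ) : ℝ) * ((2 * j + 3).choose (j + 2) : ℝ) := by
  have h1 : ((2 * j + 3).choose (j + 1) : ℝ) = (2 * j + 3).choose (j + 2) := by
    congr 1
    exact Nat.choose_symm_of_eq_add (by ring)
  have h2 : ((2 * j + 3).choose (j + 3) : ℝ) * (j + 3) = (2 * j + 3).choose (j + 2) * (j + 1) := by
    have h := Nat.choose_succ_right_eq (2 * j + 3) (j + 2)
    have e : 2 * j + 3 - (j + 2) = j + 1 := by omega
    rw [e] at h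
    exact_mod_cast h
  have h3 : ((2 * j + 3).choose (j + 1) : ℝ) * (j + 1) = (2 * j + 3).choose j * (j + 3) := by
    have h := Nat.choose_succ_right_eq (2 * j + 3) j
    have e : 2 * j + 3 - j = j + 3 := by omega
    rw [e] at h
    exact_mod_cast h
  have h4 : ((2 * (j + 3)).choose (j + 3) : ℝ) = (2 * j + 3).choose j +
      3 * (2 * j + 3).choose (j + 1) + 3 * (2 * j + 3).choose (j + 2) +
      (2 * j + 3).choose (j + 3) := by
    have e : 2 * (j + 3) = 2 * j + 3 + 1 + 1 + 1 := by ring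
    rw [e]
    simp only [Nat.choose_succ_succ]
    push_cast
    ring
  have hj : (0 : ℝ) < (j : ℝ) + 3 := by positivity
  have h5 : ((2 * j + 3).choose (j + 3) : ℝ) = (2 * j + 3).choose (j + 2) * (j + 1) / (j + 3) := by
    rw [eq_div_iff hj.ne']
    exact h2
  have h6 : ((2 * j + 3).choose j : ℝ) = (2 * j + 3).choose (j + 2) * (j + 1) / (j + 3) := by
    rw [eq_div_iff hj.ne', ← h3, h1]
  rw [h4, h1, h5, h6]
  push_cast
  field_simp
  ring

theorem count_eq (j : ℕ) : ((2 * (j + 3)).choose (j + 3) : ℝ) * (1 + gain (j + 3)) =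
    (((j + 3 : ℕ) : ℝ) - 1 / 2) * 8 / ((j + 3 : ℕ) : ℝ) * ((2 * j + 3).choose (j + 3 - 1) : ℝ) +
    (2 / ((j + 3 : ℕ) : ℝ) + (5 * ((j + 3 : ℕ) : ℝ) - 7) /
      ((((j + 3 : ℕ) : ℝ) + 1) * (((2 * j + 3 : ℕ) : ℝ) + 4))) *
    ((2 * j + 3).choose (j + 3 - 1) : ℝ) := by
  have e : j + 3 - 1 = j + 2 := by omega
  rw [e, mul_add, mul_one]
  have h := choose_id j
  have h2 : ((2 * (j + 3)).choose (j + 3) : ℝ) * gain (j + 3) =
      (2 / ((j + 3 : ℕ) : ℝ) + (5 * ((j + 3 : ℕ) : ℝ) - 7) /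
      ((((j + 3 : ℕ) : ℝ) + 1) * (((2 * j + 3 : ℕ) : ℝ) + 4))) *
      ((2 * j + 3).choose (j + 2) : ℝ) := by
    rw [h]
    unfold gain
    push_cast
    have hj : (0 : ℝ) ≤ j := Nat.cast_nonneg j
    have h3 : (4 * ((j : ℝ) + 3) ^ 2 - 1) ≠ 0 := by nlinarith
    have h4 : ((j : ℝ) + 3 + 1) ≠ 0 := by positivity
    have h5 : (2 * (j : ℝ) + 3 + 4) ≠ 0 := by positivity
    have h6 : ((j : ℝ) + 3) ≠ 0 := by positivity
    have h7 : (4 * ((j : ℝ) + 3) ^ 2 - 1) = (2 * j + 5) * (2 * j + 7) := by ring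
    have h8 : (2 * (j : ℝ) + 5) ≠ 0 := by positivity
    have h9 : (2 * (j : ℝ) + 7) ≠ 0 := by positivity
    have h10 : (2 * (j : ℝ) + 3 + 4) = 2 * j + 7 := by ring
    rw [h7, h10]
    field_simp
    ring
  rw [h2]
  congr 1

theorem even_case (hLat : StmtLat) (hIrr : StmtIrr) (hCount : StmtCount) (m : ℕ) (hm : 3 ≤ m) :
    Reach (2 * m) ((2 * m).choose m * (1 + gain m)) := by
  obtain ⟨j, rfl⟩ : ∃ j, m = j + 3 := ⟨m - 3, by omega⟩
  obtain ⟨c, hc⟩ := hCount (j + 3) (2 * j + 3) hm (by ring)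
  obtain ⟨h1, h2⟩ := hIrr (j + 3) (2 * j + 3) c hm (by ring)
  have h3 := hLat _ (fam (j + 3) (2 * j + 3) c) h1 h2
  have e : Fintype.card (Fin 3 ⊕ Fin (2 * j + 3)) = 2 * (j + 3) := by
    rw [Fintype.card_sum, Fintype.card_fin, Fintype.card_fin]
    ring
  rw [e] at h3
  refine h3.mono (le_trans (le_of_eq ?_) hc)
  exact count_eq j

theorem odd_case (hLat : StmtLat) (hProd : StmtProd) (hIrr : StmtIrr) (hCount : StmtCount)
    (m : ℕ) (hm : 3 ≤ m) :
    Reach (2 * m + 1) ((2 * m).choose m * (2 + gain m)) := by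
  obtain ⟨j, rfl⟩ : ∃ j, m = j + 3 := ⟨m - 3, by omega⟩
  obtain ⟨c, hc⟩ := hCount (j + 3) (2 * j + 3) hm (by ring)
  obtain ⟨h1, h2⟩ := hIrr (j + 3) (2 * j + 3) c hm (by ring)
  have e : Fintype.card (Fin 3 ⊕ Fin (2 * j + 3)) = 2 * (j + 3) := by
    rw [Fintype.card_sum, Fintype.card_fin, Fintype.card_fin]
    ring
  obtain ⟨G', h4, h5, h6⟩ := hProd _ (fam (j + 3) (2 * j + 3) c) (by rw [e]; omega) h1 h2
  have h3 := hLat _ G' h4 h5
  rw [Fintype.card_option, e] at h3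
  refine h3.mono ?_
  rw [h6, e]
  have e2 : 2 * (j + 3) / 2 = j + 3 := by omega
  rw [e2]
  push_cast
  have h7 := count_eq j
  have h8 : ((2 * (j + 3)).choose (j + 3) : ℝ) * (1 + gain (j + 3)) ≤
      ((fam (j + 3) (2 * j + 3) c).card : ℝ) := le_trans (le_of_eq h7) hc
  linarith

theorem gain_even (m : ℕ) (hm : 1 ≤ m) : (9 / 8 - 2 / m) / (2 * m) ≤ gain m := by
  unfold gain
  have h1 : (1 : ℝ) ≤ m := by exact_mod_cast hm
  have h2 : (0 : ℝ) < 4 * m ^ 2 - 1 := by nlinarith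
  have h3 : (0 : ℝ) < m := by linarith
  rw [div_le_div_iff₀ (by positivity) (by positivity)]
  have h4 : (9 / 8 - 2 / (m : ℝ)) = (9 * m - 16) / (8 * m) := by
    field_simp
    ring
  rw [h4, div_mul_eq_mul_div, div_le_iff₀ (by positivity)]
  nlinarith [mul_pos h3 h3, mul_pos (mul_pos h3 h3) h3, mul_pos (mul_pos (mul_pos h3 h3) h3) h3,
    mul_nonneg (sub_nonneg.2 h1) (mul_pos h3 h3).le,
    mul_nonneg (sub_nonneg.2 h1) (mul_pos (mul_pos h3 h3) h3).le]

theorem gain_odd (m : ℕ) (hm : 1 ≤ m) : 9 / 16 - 1 / (m : ℝ) ≤ gain m * (m + 1) := by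
  unfold gain
  have h1 : (1 : ℝ) ≤ m := by exact_mod_cast hm
  have h2 : (0 : ℝ) < 4 * m ^ 2 - 1 := by nlinarith
  have h3 : (0 : ℝ) < m := by linarith
  have h5 : (9 * (m : ℝ) ^ 2 - m + 2) / (4 * (4 * m ^ 2 - 1) * (m + 1)) * (m + 1) =
      (9 * (m : ℝ) ^ 2 - m + 2) / (4 * (4 * m ^ 2 - 1)) := by
    field_simp
  have h4 : (9 / 16 - 1 / (m : ℝ)) = (9 * m - 16) / (16 * m) := by
    field_simp
  rw [h5, h4, div_le_div_iff₀ (by positivity) (by positivity)]
  nlinarith [mul_pos h3 h3, mul_pos (mul_pos h3 h3) h3]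

theorem odd_eq (m : ℕ) : ((2 * m).choose m : ℝ) * (2 + gain m) =
    ((2 * m + 1).choose m : ℝ) * (1 + (1 + gain m * (m + 1)) / (2 * m + 1)) := by
  have h1 : ((2 * m + 1).choose m : ℝ) * (m + 1) = (2 * m).choose m * (2 * m + 1) := by
    have h := Nat.add_one_mul_choose_eq (2 * m) m
    have h2 : (2 * m + 1).choose (m + 1) = (2 * m + 1).choose m := Nat.choose_symm_of_eq_add (by ring)
    rw [h2] at h
    have h3 : ((2 * m + 1 : ℕ) : ℝ) * (2 * m).choose m = (2 * m + 1).choose m * ((m + 1 : ℕ) : ℝ) := by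
      exact_mod_cast h
    push_cast at h3
    linarith
  have h2 : (2 * (m : ℝ) + 1) ≠ 0 := by positivity
  have h3 : ((2 * m).choose m : ℝ) = ((2 * m + 1).choose m : ℝ) * (m + 1) / (2 * m + 1) := by
    rw [eq_div_iff h2]
    linarith
  rw [h3]
  field_simp
  ring

/-- all statements together -/
theorem final (hLat : StmtLat) (hProd : StmtProd) (hIrr : StmtIrr) (hCount : StmtCount) :
    (∀ m : ℕ, 3 ≤ m → Reach (2 * m) ((2 * m).choose m * (1 + gain m))) ∧
    (∀ m : ℕ, 3 ≤ m → Reach (2 * m + 1) ((2 * m).choose m * (2 + gain m))) ∧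
    (∀ ε : ℝ, 0 < ε → ∃ n₀ : ℕ, ∀ n ≥ n₀,
      (Even n → Reach n (n.choose (n / 2) * (1 + (9 / 8 - ε) / n))) ∧
      (Odd n → Reach n (n.choose (n / 2) * (1 + (25 / 16 - ε) / n)))) := by
  refine ⟨even_case hLat hIrr hCount, odd_case hLat hProd hIrr hCount, fun ε hε => ?_⟩
  obtain ⟨k, hk⟩ := exists_nat_gt (2 / ε)
  refine ⟨2 * (k + 3) + 1, fun n hn => ⟨fun he => ?_, fun ho => ?_⟩⟩
  · obtain ⟨m, hm⟩ := he
    have hm2 : n = 2 * m := by omega
    subst hm2
    have hkm : k + 3 ≤ m := by omega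
    have h1 : (0 : ℝ) < m := by
      have : 0 < m := by omega
      exact_mod_cast this
    have h2 : 2 / (m : ℝ) ≤ ε := by
      have hkm' : (k : ℝ) ≤ m := by
        have : k ≤ m := by omega
        exact_mod_cast this
      rw [div_le_iff₀ h1]
      rw [div_lt_iff₀ hε] at hk
      nlinarith
    have e : 2 * m / 2 = m := by omega
    rw [e]
    refine (even_case hLat hIrr hCount m (by omega)).mono ?_
    refine mul_le_mul_of_nonneg_left ?_ (Nat.cast_nonneg _)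
    have h3 := gain_even m (by omega)
    have h4 : (9 / 8 - ε) / ((2 * m : ℕ) : ℝ) ≤ (9 / 8 - 2 / m) / (2 * m) := by
      push_cast
      gcongr
    linarith
  · obtain ⟨m, hm⟩ := ho
    subst hm
    have hkm : k + 3 ≤ m := by omega
    have h1 : (0 : ℝ) < m := by
      have : 0 < m := by omega
      exact_mod_cast this
    have h2 : 1 / (m : ℝ) ≤ ε := by
      have hkm' : (k : ℝ) ≤ m := by
        have : k ≤ m := by omega
        exact_mod_cast this
      rw [div_le_iff₀ h1]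
      rw [div_lt_iff₀ hε] at hk
      nlinarith
    have e : (2 * m + 1) / 2 = m := by omega
    rw [e]
    refine (odd_case hLat hProd hIrr hCount m (by omega)).mono ?_
    rw [odd_eq]
    refine mul_le_mul_of_nonneg_left ?_ (Nat.cast_nonneg _)
    have h3 := gain_odd m (by omega)
    have h4 : (25 / 16 - ε) / ((2 * m + 1 : ℕ) : ℝ) ≤ (1 + gain m * (m + 1)) / (2 * m + 1) := by
      push_cast
      gcongr
      linarith
    linarith

end Pool.Agent.Lib.MP_78e117_co
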