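import Pool.Agent.Lib.MP_78e117_co.Stmts

/-!
# MP_78e117_co, module Irr

`irr : StmtIrr`: the family `fam m N c` is irreducible (each member has a private point) and
separating.
-/

set_option autoImplicit false

namespace Pool.Agent.Lib.MP_78e117_co

namespace IrrAux

lemma mem_fam {m N : ℕ} {c : ZMod (N + 4)} {T : Finset (Fin 3 ⊕ Fin N)} :
    T ∈ fam m N c ↔ Mem m N c T.toLeft T.toRight := by
  classical
  unfold fam
  simp

/-- labels are residues less than `N`, so that they determine the point -/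
lemma lab_inj {N : ℕ} {x y : Fin N} (h : ((x : ℕ) : ZMod (N + 4)) = ((y : ℕ) : ZMod (N + 4))) :
    x = y := by
  rw [ZMod.natCast_eq_natCast_iff'] at h
  rw [Nat.mod_eq_of_lt (by omega), Nat.mod_eq_of_lt (by omega)] at h
  exact Fin.ext h

lemma lab_ne {N : ℕ} (x : Fin N) (j : ℕ) (hj : j < 4) :
    ((x : ℕ) : ZMod (N + 4)) ≠ ((N + j : ℕ) : ZMod (N + 4)) := by
  intro h
  rw [ZMod.natCast_eq_natCast_iff'] at h
  rw [Nat.mod_eq_of_lt (by omega), Nat.mod_eq_of_lt (by omega)] at h
  omega

lemma lab_erase {N : ℕ} {R : Finset (Fin N)} {y : Fin N} (hy : y ∈ R) :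
    lab R = lab (R.erase y) + ((y : ℕ) : ZMod (N + 4)) := by
  unfold lab
  rw [Finset.sum_erase_add _ _ hy]

lemma exists_erase {N : ℕ} {R R' : Finset (Fin N)} (h : R' ⊆ R) (hc : R'.card + 1 = R.card) :
    ∃ y ∈ R, R' = R.erase y := by
  have hss : R' ⊂ R := by
    refine (Finset.ssubset_iff_subset_ne).2 ⟨h, ?_⟩
    rintro rfl
    omega
  obtain ⟨y, hy, hy'⟩ := Finset.exists_of_ssubset hss
  refine ⟨y, hy, ?_⟩
  refine Finset.eq_of_subset_of_card_le (Finset.subset_erase.2 ⟨h, hy'⟩) ?_
  rw [Finset.card_erase_of_mem hy]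
  omega

lemma pairs (P : Finset (Fin 3)) (h : P.card = 2) : P = {0, 1} ∨ P = {0, 2} ∨ P = {1, 2} := by
  revert P; decide

lemma cod_empty {N : ℕ} (c : ZMod (N + 4)) : cod c ∅ = c + 2 * N + 3 := by simp [cod]

lemma cod_univ {N : ℕ} (c : ZMod (N + 4)) : cod c (Finset.univ : Finset (Fin 3)) = c := by
  unfold cod
  rw [if_neg (by decide), if_neg (by decide), if_neg (by decide), if_neg (by decide)]

lemma cod01 {N : ℕ} (c : ZMod (N + 4)) : cod c ({0, 1} : Finset (Fin 3)) = c + N := by
  unfold cod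
  rw [if_neg (by decide), if_pos rfl]

lemma cod02 {N : ℕ} (c : ZMod (N + 4)) : cod c ({0, 2} : Finset (Fin 3)) = c + N + 1 := by
  unfold cod
  rw [if_neg (by decide), if_neg (by decide), if_pos rfl]

lemma cod12 {N : ℕ} (c : ZMod (N + 4)) : cod c ({1, 2} : Finset (Fin 3)) = c + N + 2 := by
  unfold cod
  rw [if_neg (by decide), if_neg (by decide), if_neg (by decide), if_pos rfl]

/-- the code class of a pair is `c` plus a residue which is not a label -/
lemma cod_pair {N : ℕ} (c : ZMod (N + 4)) (P : Finset (Fin 3)) (h : P.card = 2) :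
    ∃ j < 3, cod c P = c + ((N + j : ℕ) : ZMod (N + 4)) := by
  rcases pairs P h with rfl | rfl | rfl
  · exact ⟨0, by norm_num, by rw [cod01]; simp⟩
  · exact ⟨1, by norm_num, by rw [cod02]; push_cast; ring⟩
  · exact ⟨2, by norm_num, by rw [cod12]; push_cast; ring⟩

/-- the class of the empty set is the class of a pair plus a residue which is not a label -/
lemma cod_empty_pair {N : ℕ} (c : ZMod (N + 4)) (P : Finset (Fin 3)) (h : P.card = 2) :
    ∃ j < 4, cod c ∅ = cod c P + ((N + j : ℕ) : ZMod (N + 4)) := by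
  rw [cod_empty]
  rcases pairs P h with rfl | rfl | rfl
  · exact ⟨3, by norm_num, by rw [cod01]; push_cast; ring⟩
  · exact ⟨2, by norm_num, by rw [cod02]; push_cast; ring⟩
  · exact ⟨1, by norm_num, by rw [cod12]; push_cast; ring⟩

lemma nat_ne {N : ℕ} (a b : ℕ) (ha : a < N + 4) (hb : b < N + 4) (hab : a ≠ b) :
    ((a : ℕ) : ZMod (N + 4)) ≠ ((b : ℕ) : ZMod (N + 4)) := by
  intro h
  rw [ZMod.natCast_eq_natCast_iff'] at h
  rw [Nat.mod_eq_of_lt ha, Nat.mod_eq_of_lt hb] at h
  exact hab h

/-- different pairs have different classes -/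
lemma cod_pair_inj {N : ℕ} (c : ZMod (N + 4)) (P Q : Finset (Fin 3)) (hP : P.card = 2)
    (hQ : Q.card = 2) (h : cod c P = cod c Q) : P = Q := by
  have n01 := nat_ne (N := N) N (N + 1) (by omega) (by omega) (by omega)
  have n02 := nat_ne (N := N) N (N + 2) (by omega) (by omega) (by omega)
  have n12 := nat_ne (N := N) (N + 1) (N + 2) (by omega) (by omega) (by omega)
  push_cast at n01 n02 n12
  rcases pairs P hP with rfl | rfl | rfl <;> rcases pairs Q hQ with rfl | rfl | rfl <;>
    simp only [cod01, cod02, cod12, add_assoc, add_right_inj] at h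
  · rfl
  · exact absurd h n01
  · exact absurd h n02
  · exact absurd h.symm n01
  · rfl
  · exact absurd (by rw [h]) n12
  · exact absurd h.symm n02
  · exact absurd (by rw [← h]) n12
  · rfl

lemma lev_empty (m : ℕ) : lev m (∅ : Finset (Fin 3)) = m - 1 := by simp [lev]

lemma lev_card (m : ℕ) (P : Finset (Fin 3)) (h : P.card ≠ 0) : lev m P = m - P.card := by
  unfold lev
  rw [if_neg]
  intro h'
  exact h (by simp [h'])

/-- the proper members below a member -/
lemma below {m N : ℕ} {c : ZMod (N + 4)} (hm : 3 ≤ m) {P P' : Finset (Fin 3)}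
    {R R' : Finset (Fin N)} (hT : Mem m N c P R) (hS : Mem m N c P' R') (hP : P' ⊆ P)
    (hR : R' ⊆ R) (hne : ¬ (P' = P ∧ R' = R)) :
    (P' = P ∧ P.card ≠ 1 ∧ R.card = lev m P ∧ (∃ y ∈ R, R' = R.erase y) ∧ lab R' = cod c P)
    ∨ (P.card = 1 ∧ P' = ∅)
    ∨ (P.card = 2 ∧ P' = ∅ ∧ R' = R ∧ lab R = cod c ∅)
    ∨ (P.card = 3 ∧ P'.card = 2 ∧ R' = R ∧ lab R = cod c P') := by
  have hPc : P.card ≤ 3 := by
    have := Finset.card_le_univ P
    simpa using this
  have hPc' : P'.card ≤ P.card := Finset.card_le_card hP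
  have hRc : R'.card ≤ R.card := Finset.card_le_card hR
  by_cases hPP : P' = P
  · left
    subst hPP
    have hRR : R' ≠ R := fun h => hne ⟨rfl, h⟩
    have hlt : R'.card < R.card :=
      Finset.card_lt_card (Finset.ssubset_iff_subset_ne.2 ⟨hR, hRR⟩)
    rcases hT with hT | ⟨hT1, hT2, hT3⟩
    · rcases hS with hS | ⟨hS1, hS2, hS3⟩
      · omega
      · exact ⟨rfl, hS1, hT, exists_erase hR (by omega), hS3⟩
    · rcases hS with hS | ⟨hS1, hS2, hS3⟩ <;> omega
  · right
    have hlt : P'.card < P.card :=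
      Finset.card_lt_card (Finset.ssubset_iff_subset_ne.2 ⟨hP, hPP⟩)
    have hlT := lev_card m P (by omega)
    have hTle : R.card ≤ lev m P := by
      rcases hT with hT | ⟨hT1, hT2, hT3⟩ <;> omega
    have hSge : lev m P' ≤ R'.card + 1 := by
      rcases hS with hS | ⟨hS1, hS2, hS3⟩ <;> omega
    by_cases h0 : P'.card = 0
    · have hP0 : P' = ∅ := Finset.card_eq_zero.1 h0
      subst hP0
      rw [lev_empty] at hSge
      by_cases h1 : P.card = 1
      · exact Or.inl ⟨h1, rfl⟩
      · right; left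
        have h2 : P.card = 2 := by omega
        have hRR : R' = R := Finset.eq_of_subset_of_card_le hR (by omega)
        refine ⟨h2, rfl, hRR, ?_⟩
        subst hRR
        rcases hS with hS | ⟨hS1, hS2, hS3⟩
        · rw [lev_empty] at hS
          omega
        · exact hS3
    · have hlS := lev_card m P' h0
      by_cases h1 : P'.card = 1
      · -- singletons have the full size
        exfalso
        rcases hS with hS | ⟨hS1, hS2, hS3⟩
        · omega
        · exact hS1 h1
      · have h2 : P'.card = 2 := by omega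
        have h3 : P.card = 3 := by omega
        right; right
        have hRR : R' = R := Finset.eq_of_subset_of_card_le hR (by omega)
        refine ⟨h3, h2, hRR, ?_⟩
        subst hRR
        rcases hS with hS | ⟨hS1, hS2, hS3⟩
        · omega
        · exact hS3

/-- the private point -/
lemma priv {m N : ℕ} {c : ZMod (N + 4)} (hm : 3 ≤ m) {P : Finset (Fin 3)}
    {R : Finset (Fin N)} (hT : Mem m N c P R) :
    (∃ y ∈ R, ∀ P' R', Mem m N c P' R' → P' ⊆ P → R' ⊆ R → ¬ (P' = P ∧ R' = R) → y ∉ R')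
    ∨ (∃ p ∈ P, ∀ P' R', Mem m N c P' R' → P' ⊆ P → R' ⊆ R → ¬ (P' = P ∧ R' = R) → p ∉ P') := by
  have hPc : P.card ≤ 3 := by
    have := Finset.card_le_univ P
    simpa using this
  have hcod : cod c P = if P.card = 3 then c else cod c P := by
    split_ifs with h
    · have : P = Finset.univ := Finset.eq_univ_of_card P (by simpa using h)
      rw [this, cod_univ]
    · rfl
  by_cases hA : P.card ≠ 1 ∧ R.card = lev m P ∧ ∃ y ∈ R, lab (R.erase y) = cod c P
  · obtain ⟨h1, h2, y, hy, hlab⟩ := hA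
    left
    refine ⟨y, hy, ?_⟩
    intro P' R' hS hP hR hne hyR
    rcases below hm hT hS hP hR hne with ⟨_, _, _, ⟨z, hz, hz'⟩, hl⟩ | ⟨h3, _⟩
      | ⟨h3, h4, h5, h6⟩ | ⟨h3, h4, h5, h6⟩
    · -- the same special part
      subst hz'
      have e1 := lab_erase hy
      have e2 := lab_erase hz
      rw [hlab] at e1
      rw [hl] at e2
      have : y = z := lab_inj (add_left_cancel (e1.symm.trans e2))
      subst this
      exact absurd hyR (Finset.notMem_erase y R)
    · exact h1 h3
    · obtain ⟨j, hj, hj'⟩ := cod_empty_pair c P h3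
      have e1 := lab_erase hy
      rw [hlab, h6, hj'] at e1
      exact lab_ne y j hj (add_left_cancel e1).symm
    · obtain ⟨j, hj, hj'⟩ := cod_pair c P' h4
      have e1 := lab_erase hy
      rw [hlab, h6, hj', hcod, if_pos h3] at e1
      exact lab_ne y j (by omega) (add_left_cancel e1).symm
  · -- no member with the same special part below
    have hA' : ∀ R', Mem m N c P R' → R' ⊆ R → R' ≠ R → False := by
      intro R' hS hR hne
      rcases below hm hT hS (le_refl P) hR (fun h => hne h.2) with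
        ⟨_, h2, h3, ⟨z, hz, hz'⟩, hl⟩ | ⟨h3, h4⟩ | ⟨h3, h4, h5, h6⟩ | ⟨h3, h4, h5, h6⟩
      · subst hz'
        exact hA ⟨h2, h3, z, hz, hl⟩
      · rw [h4] at h3
        simp at h3
      · rw [h4] at h3
        simp at h3
      · omega
    by_cases hP0 : P = ∅
    · -- any ordinary point
      left
      subst hP0
      have hRpos : R.Nonempty := by
        rw [← Finset.card_pos]
        rcases hT with hT | ⟨hT1, hT2, hT3⟩
        · rw [lev_empty] at hT; omega
        · rw [lev_empty] at hT2; omega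
      obtain ⟨y, hy⟩ := hRpos
      refine ⟨y, hy, ?_⟩
      intro P' R' hS hP hR hne _
      have hP' : P' = ∅ := Finset.subset_empty.1 hP
      subst hP'
      exact hA' R' hS hR (fun h => hne ⟨rfl, h⟩)
    · right
      have hPne : P.Nonempty := Finset.nonempty_iff_ne_empty.2 hP0
      by_cases hB : P.card = 3 ∧ ∃ Q : Finset (Fin 3), Q.card = 2 ∧ lab R = cod c Q
      · obtain ⟨hP3, Q, hQ, hlab⟩ := hB
        have hPu : P = Finset.univ := Finset.eq_univ_of_card P (by simpa using hP3)
        have hex : ∃ p, p ∉ Q := by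
          by_contra hcon
          push Not at hcon
          have : Q = Finset.univ := Finset.eq_univ_iff_forall.2 hcon
          rw [this] at hQ
          simp at hQ
        obtain ⟨p, hp⟩ := hex
        refine ⟨p, by rw [hPu]; exact Finset.mem_univ p, ?_⟩
        intro P' R' hS hP hR hne hpP'
        rcases below hm hT hS hP hR hne with ⟨h2, _⟩ | ⟨h3, h4⟩
          | ⟨h3, h4, h5, h6⟩ | ⟨h3, h4, h5, h6⟩
        · subst h2
          exact hA' R' hS hR (fun h => hne ⟨rfl, h⟩)
        · rw [h4] at hpP'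
          simp at hpP'
        · rw [h4] at hpP'
          simp at hpP'
        · have : P' = Q := cod_pair_inj c P' Q h4 hQ (h6.symm.trans hlab)
          rw [this] at hpP'
          exact hp hpP'
      · obtain ⟨p, hp⟩ := hPne
        refine ⟨p, hp, ?_⟩
        intro P' R' hS hP hR hne hpP'
        rcases below hm hT hS hP hR hne with ⟨h2, _⟩ | ⟨h3, h4⟩
          | ⟨h3, h4, h5, h6⟩ | ⟨h3, h4, h5, h6⟩
        · subst h2
          exact hA' R' hS hR (fun h => hne ⟨rfl, h⟩)
        · rw [h4] at hpP'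
          simp at hpP'
        · rw [h4] at hpP'
          simp at hpP'
        · exact hB ⟨h3, P', h4, h6⟩

/-- a set of ordinary points of given size which contains `y` and avoids `x` -/
lemma exists_ord {N : ℕ} (y : Fin N) (A : Finset (Fin N)) (hyA : y ∉ A) (hA : A.card ≤ 1)
    (k : ℕ) (hk : 1 ≤ k) (hkN : k + 1 ≤ N) : ∃ R : Finset (Fin N), y ∈ R ∧ Disjoint A R ∧
      R.card = k := by
  have hsub : ({y} : Finset (Fin N)) ⊆ Finset.univ \ A := by
    intro z hz
    rw [Finset.mem_singleton] at hz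
    subst hz
    simp [hyA]
  have hcard : (Finset.univ \ A : Finset (Fin N)).card = N - A.card := by
    rw [Finset.card_sdiff_of_subset (Finset.subset_univ A), Finset.card_univ, Fintype.card_fin]
  obtain ⟨R, hR1, hR2, hR3⟩ := Finset.exists_subsuperset_card_eq hsub (n := k)
    (by simpa using hk) (by rw [hcard]; omega)
  refine ⟨R, hR1 (by simp), ?_, hR3⟩
  rw [Finset.disjoint_left]
  intro z hz hz'
  have := hR2 hz'
  simp [hz] at this

lemma exists_ord' {N : ℕ} (A : Finset (Fin N)) (hA : A.card ≤ 1)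
    (k : ℕ) (hkN : k + 1 ≤ N) : ∃ R : Finset (Fin N), Disjoint A R ∧ R.card = k := by
  have hcard : (Finset.univ \ A : Finset (Fin N)).card = N - A.card := by
    rw [Finset.card_sdiff_of_subset (Finset.subset_univ A), Finset.card_univ, Fintype.card_fin]
  obtain ⟨R, hR2, hR3⟩ := Finset.exists_subset_card_eq
    (s := (Finset.univ \ A : Finset (Fin N))) (n := k) (by rw [hcard]; omega)
  refine ⟨R, ?_, hR3⟩
  rw [Finset.disjoint_left]
  intro z hz hz'
  have := hR2 hz'
  simp [hz] at this

/-- the members which are used for the separation -/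
lemma mem_main {m N : ℕ} {c : ZMod (N + 4)} (P : Finset (Fin 3)) (hP : P.card ≤ 1)
    (R : Finset (Fin N)) (hR : R.card = m - 1) : Finset.disjSum P R ∈ fam m N c := by
  rw [mem_fam]
  left
  simp only [Finset.toLeft_disjSum, Finset.toRight_disjSum, hR]
  rcases Nat.eq_zero_or_pos P.card with h | h
  · rw [Finset.card_eq_zero.1 h, lev_empty]
  · rw [lev_card m P (by omega)]
    congr 1
    omega

lemma sep_pt {m N : ℕ} {c : ZMod (N + 4)} (hm : 3 ≤ m) (hN : N + 3 = 2 * m)
    (A : Finset (Fin 3 ⊕ Fin N)) (hA : A.card ≤ 1) (y : Fin 3 ⊕ Fin N) (hy : y ∉ A) :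
    ∃ T ∈ fam m N c, y ∈ T ∧ Disjoint A T := by
  have hAr : A.toRight.card ≤ 1 := le_trans (Finset.card_toRight_le) hA
  rcases y with p | y
  · obtain ⟨R, hR1, hR2⟩ := exists_ord' A.toRight hAr (m - 1) (by omega)
    refine ⟨Finset.disjSum {p} R, mem_main {p} (by simp) R hR2, by simp, ?_⟩
    rw [Finset.disjoint_left]
    intro z hz hz'
    rcases z with q | z
    · simp only [Finset.inl_mem_disjSum, Finset.mem_singleton] at hz'
      subst hz'
      exact hy hz
    · simp only [Finset.inr_mem_disjSum] at hz'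
      exact Finset.disjoint_left.1 hR1 (Finset.mem_toRight.2 hz) hz'
  · have hy' : y ∉ A.toRight := by simpa using hy
    obtain ⟨R, hR0, hR1, hR2⟩ := exists_ord y A.toRight hy' hAr (m - 1) (by omega) (by omega)
    refine ⟨Finset.disjSum ∅ R, mem_main ∅ (by simp) R hR2, by simpa using hR0, ?_⟩
    rw [Finset.disjoint_left]
    intro z hz hz'
    rcases z with q | z
    · simp at hz'
    · simp only [Finset.inr_mem_disjSum] at hz'
      exact Finset.disjoint_left.1 hR1 (Finset.mem_toRight.2 hz) hz'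

end IrrAux

open IrrAux in
/-- **(Irr)** -/
theorem irr : StmtIrr := by
  intro m N c hm hN
  refine ⟨?_, ?_, ?_⟩
  · intro T hT
    rw [mem_fam] at hT
    have hsub : ∀ S : Finset (Fin 3 ⊕ Fin N), S ⊂ T → S.toLeft ⊆ T.toLeft ∧
        S.toRight ⊆ T.toRight ∧ ¬ (S.toLeft = T.toLeft ∧ S.toRight = T.toRight) := by
      intro S hS
      refine ⟨?_, ?_, ?_⟩
      · intro p hp
        exact Finset.mem_toLeft.2 (hS.1 (Finset.mem_toLeft.1 hp))
      · intro p hp
        exact Finset.mem_toRight.2 (hS.1 (Finset.mem_toRight.1 hp))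
      · rintro ⟨h1, h2⟩
        have : S = T :=
          (Finset.sumEquiv (α := Fin 3) (β := Fin N)).injective (Prod.ext h1 h2)
        exact hS.ne this
    rcases priv hm hT with ⟨y, hy, h⟩ | ⟨p, hp, h⟩
    · refine ⟨Sum.inr y, Finset.mem_toRight.1 hy, ?_⟩
      intro S hS hST hyS
      obtain ⟨h1, h2, h3⟩ := hsub S hST
      exact h _ _ (mem_fam.1 hS) h1 h2 h3 (Finset.mem_toRight.2 hyS)
    · refine ⟨Sum.inl p, Finset.mem_toLeft.1 hp, ?_⟩
      intro S hS hST hyS
      obtain ⟨h1, h2, h3⟩ := hsub S hST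
      exact h _ _ (mem_fam.1 hS) h1 h2 h3 (Finset.mem_toLeft.2 hyS)
  · intro x
    obtain ⟨T, hT, hxT, _⟩ := sep_pt (c := c) hm hN ∅ (by simp) x (by simp)
    exact ⟨T, hT, hxT⟩
  · intro x y hxy
    obtain ⟨T, hT, hyT, hd⟩ := sep_pt (c := c) hm hN {x} (by simp) y
      (by simpa using fun h => hxy h.symm)
    refine ⟨T, hT, hyT, ?_⟩
    simpa using hd

end Pool.Agent.Lib.MP_78e117_co
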