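import Pool.Agent.Lib.MP_78e117_co.Stmts

/-!
# MP_78e117_co: the lattice of a family
-/

set_option autoImplicit false

namespace Pool.Agent.Lib.MP_78e117_co

namespace LatAux

variable {α : Type} [Fintype α] [DecidableEq α]

/-- closed sets -/
def Cl (G : Finset (Finset α)) (C : Finset α) : Prop := ∀ x, x ∉ C → ∃ T ∈ G, x ∈ T ∧ Disjoint T C

open Classical in
/-- closure -/
noncomputable def cl (G : Finset (Finset α)) (C : Finset α) : Finset α :=
  Finset.univ.filter fun x => ∀ T ∈ G, x ∈ T → ¬ Disjoint T C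

theorem mem_cl {G : Finset (Finset α)} {C : Finset α} {x : α} :
    x ∈ cl G C ↔ ∀ T ∈ G, x ∈ T → ¬ Disjoint T C := by
  unfold cl
  simp

theorem sub_cl (G : Finset (Finset α)) (C : Finset α) : C ⊆ cl G C := by
  intro x hx
  rw [mem_cl]
  intro T _ hxT hd
  exact Finset.disjoint_left.1 hd hxT hx

theorem closed_cl (G : Finset (Finset α)) (C : Finset α) : Cl G (cl G C) := by
  intro x hx
  rw [mem_cl] at hx
  push Not at hx
  obtain ⟨T, hT, hxT, hd⟩ := hx
  refine ⟨T, hT, hxT, ?_⟩
  rw [Finset.disjoint_left]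
  intro y hyT hyC
  exact mem_cl.1 hyC T hT hyT hd

theorem cl_min {G : Finset (Finset α)} {C D : Finset α} (hD : Cl G D) (h : C ⊆ D) :
    cl G C ⊆ D := by
  intro x hx
  by_contra hxD
  obtain ⟨T, hT, hxT, hd⟩ := hD x hxD
  exact mem_cl.1 hx T hT hxT (hd.mono_right h)

theorem closed_inter {G : Finset (Finset α)} {C D : Finset α} (hC : Cl G C) (hD : Cl G D) :
    Cl G (C ∩ D) := by
  intro x hx
  by_cases h : x ∈ C
  · have h2 : x ∉ D := fun h2 => hx (Finset.mem_inter.2 ⟨h, h2⟩)
    obtain ⟨T, hT, hxT, hd⟩ := hD x h2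
    exact ⟨T, hT, hxT, hd.mono_right Finset.inter_subset_right⟩
  · obtain ⟨T, hT, hxT, hd⟩ := hC x h
    exact ⟨T, hT, hxT, hd.mono_right Finset.inter_subset_left⟩

/-- the lattice of the closed sets -/
@[instance_reducible] noncomputable def latt (G : Finset (Finset α)) : Lattice {C : Finset α // Cl G C} :=
  { (inferInstance : PartialOrder {C : Finset α // Cl G C}) with
    sup := fun C D => ⟨cl G (C.1 ∪ D.1), closed_cl G _⟩
    inf := fun C D => ⟨C.1 ∩ D.1, closed_inter C.2 D.2⟩
    le_sup_left := fun _ _ => Finset.subset_union_left.trans (sub_cl G _)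
    le_sup_right := fun _ _ => Finset.subset_union_right.trans (sub_cl G _)
    sup_le := fun _ _ C h1 h2 => cl_min C.2 (Finset.union_subset h1 h2)
    inf_le_left := fun _ _ => Finset.inter_subset_left
    inf_le_right := fun _ _ => Finset.inter_subset_right
    le_inf := fun _ _ _ h1 h2 => Finset.subset_inter h1 h2 }

theorem closed_empty {G : Finset (Finset α)} (h : Sep G) : Cl G ∅ := by
  intro x _
  obtain ⟨T, hT, hxT⟩ := h.1 x
  exact ⟨T, hT, hxT, Finset.disjoint_empty_right T⟩

theorem closed_single {G : Finset (Finset α)} (h : Sep G) (x : α) : Cl G {x} := by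
  intro y hy
  rw [Finset.mem_singleton] at hy
  obtain ⟨T, hT, hyT, hxT⟩ := h.2 x y (Ne.symm hy)
  exact ⟨T, hT, hyT, Finset.disjoint_singleton_right.2 hxT⟩

theorem closed_compl {G : Finset (Finset α)} {T : Finset α} (hT : T ∈ G) : Cl G Tᶜ := by
  intro x hx
  rw [Finset.mem_compl, not_not] at hx
  exact ⟨T, hT, hx, disjoint_compl_right⟩

end LatAux

open LatAux

theorem lat : StmtLat := by
  intro α _ _ G hI hS
  letI := latt G
  have hfin : Finite {C : Finset α // Cl G C} := inferInstance
  have hle : ∀ C D : {C : Finset α // Cl G C}, C ≤ D ↔ C.1 ⊆ D.1 := fun C D => Iff.rfl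
  have hlt : ∀ C D : {C : Finset α // Cl G C}, C < D ↔ C.1 ⊂ D.1 := by
    intro C D
    rw [lt_iff_le_not_ge, hle, hle]
    exact Iff.rfl
  refine ⟨{C : Finset α // Cl G C}, latt G, hfin, ?_, ?_⟩
  · -- join-irreducibles
    have hset : {C : {C : Finset α // Cl G C} | ∃! y, y ⋖ C} =
        Set.range fun x : α => (⟨{x}, closed_single hS x⟩ : {C : Finset α // Cl G C}) := by
      ext C
      constructor
      · rintro ⟨y, hy, huniq⟩
        by_contra hns
        have hall : C.1 ⊆ y.1 := by
          intro x hx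
          have h1 : (⟨{x}, closed_single hS x⟩ : {C : Finset α // Cl G C}) ≤ C := by
            rw [hle]
            exact Finset.singleton_subset_iff.2 hx
          have h2 : (⟨{x}, closed_single hS x⟩ : {C : Finset α // Cl G C}) ≠ C := by
            intro h
            exact hns ⟨x, h⟩
          obtain ⟨c, hc1, hc2⟩ := exists_le_covBy_of_lt (lt_of_le_of_ne h1 h2)
          have h3 : c = y := huniq c hc2
          rw [h3, hle] at hc1
          exact Finset.singleton_subset_iff.1 hc1
        exact absurd hy.lt (not_lt_of_ge hall)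
      · rintro ⟨x, rfl⟩
        have hempty : ∀ y : {C : Finset α // Cl G C},
            y < ⟨{x}, closed_single hS x⟩ → y = ⟨∅, closed_empty hS⟩ := by
          intro y hy
          rw [hlt] at hy
          apply Subtype.ext
          exact Finset.ssubset_singleton_iff.1 hy
        have h0 : (⟨∅, closed_empty hS⟩ : {C : Finset α // Cl G C}) <
            ⟨{x}, closed_single hS x⟩ := by
          rw [hlt]
          exact Finset.ssubset_singleton_iff.2 rfl
        refine ⟨⟨∅, closed_empty hS⟩, ⟨h0, ?_⟩, fun y hy => hempty y hy.lt⟩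
        intro c hc1 hc2
        rw [hempty c hc2] at hc1
        exact lt_irrefl _ hc1
    have hJ : @numJ {C : Finset α // Cl G C} (latt G) =
        ({C : {C : Finset α // Cl G C} | ∃! y, y ⋖ C} : Set _).ncard := rfl
    rw [hJ, hset, ← Set.image_univ, Set.ncard_image_of_injective, Set.ncard_univ,
      Nat.card_eq_fintype_card]
    intro x y hxy
    have := congrArg Subtype.val hxy
    simpa using this
  · -- meet-irreducibles
    have hsub : (fun T : Finset α => (Tᶜ : Finset α)) '' (G : Set (Finset α)) ⊆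
        Subtype.val '' {C : {C : Finset α // Cl G C} | ∃! y, C ⋖ y} := by
      rintro _ ⟨T, hT, rfl⟩
      have hTG : T ∈ G := hT
      refine ⟨⟨Tᶜ, closed_compl hTG⟩, ?_, rfl⟩
      obtain ⟨x, hxT, hpriv⟩ := hI T hTG
      set D : {C : Finset α // Cl G C} := ⟨cl G (insert x Tᶜ), closed_cl G _⟩ with hD
      have hlow : ∀ C : {C : Finset α // Cl G C}, ⟨Tᶜ, closed_compl hTG⟩ < C → D ≤ C := by
        intro C hC
        rw [hlt] at hC
        rw [hle]
        refine cl_min C.2 (Finset.insert_subset ?_ hC.1)
        by_contra hxC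
        obtain ⟨S, hS1, hxS, hd⟩ := C.2 x hxC
        refine hpriv S hS1 ?_ hxS
        rw [Finset.ssubset_iff_subset_ne]
        have hST : S ⊆ T := by
          intro z hz
          by_contra hzT
          exact Finset.disjoint_left.1 hd hz (hC.1 (Finset.mem_compl.2 hzT))
        refine ⟨hST, fun h => ?_⟩
        obtain ⟨z, hz1, hz2⟩ := Finset.exists_of_ssubset hC
        rw [Finset.mem_compl, not_not] at hz2
        rw [h] at hd
        exact Finset.disjoint_left.1 hd hz2 hz1
      have hlt' : (⟨Tᶜ, closed_compl hTG⟩ : {C : Finset α // Cl G C}) < D := by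
        rw [hlt, Finset.ssubset_iff_of_subset
          ((Finset.subset_insert x Tᶜ).trans (sub_cl G _))]
        exact ⟨x, sub_cl G _ (Finset.mem_insert_self _ _), by simpa using hxT⟩
      refine ⟨D, ⟨hlt', fun c hc1 hc2 => ?_⟩, fun y hy => ?_⟩
      · exact absurd (hlow c hc1) (not_le_of_gt hc2)
      · by_contra hne
        exact hy.2 hlt' (lt_of_le_of_ne (hlow y hy.lt) (Ne.symm hne))
    have h1 := Set.ncard_le_ncard hsub (Set.toFinite _)
    rw [Set.ncard_image_of_injective _ compl_injective, Set.ncard_coe_finset,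
      Set.ncard_image_of_injective _ Subtype.val_injective] at h1
    have hM : @numM {C : Finset α // Cl G C} (latt G) =
        ({C : {C : Finset α // Cl G C} | ∃! y, C ⋖ y} : Set _).ncard := rfl
    rw [hM]
    exact_mod_cast h1

end Pool.Agent.Lib.MP_78e117_co
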