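import Pool.Agent.Lib.MP_78e117_co.Stmts

/-!
# MP_78e117_co: adding one point to an irreducible separating family (module MI-Prod)
-/

set_option autoImplicit false

namespace Pool.Agent.Lib.MP_78e117_co

open Finset

theorem prod : StmtProd := by
  classical
  intro α _ _ G hpos hirr hsep
  set k := Fintype.card α / 2 with hk
  let f : Finset α → Finset (Option α) := fun T => T.map Function.Embedding.some
  let g : Finset α → Finset (Option α) := fun S => insert none (S.map Function.Embedding.some)
  have hf_none : ∀ T, none ∉ f T := by
    intro T h
    simp [f] at h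
  have hf_some : ∀ T a, some a ∈ f T ↔ a ∈ T := by
    intro T a
    simp [f]
  have hg_none : ∀ S, none ∈ g S := by
    intro S
    simp [g]
  have hg_some : ∀ S a, some a ∈ g S ↔ a ∈ S := by
    intro S a
    simp [g]
  have hf_inj : Function.Injective f := by
    intro S T h
    ext a
    rw [← hf_some, ← hf_some, h]
  have hg_inj : Function.Injective g := by
    intro S T h
    ext a
    rw [← hg_some, ← hg_some, h]
  have hg_card : ∀ S, (g S).card = S.card + 1 := by
    intro S
    have : none ∉ S.map Function.Embedding.some := by simp
    simp only [g]
    rw [card_insert_of_notMem this, card_map]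
  refine ⟨G.image f ∪ (powersetCard k univ).image g, ?_, ?_, ?_⟩
  · intro T hT
    rw [mem_union, mem_image, mem_image] at hT
    rcases hT with ⟨T0, hT0, rfl⟩ | ⟨S0, hS0, rfl⟩
    · obtain ⟨x, hx, hpriv⟩ := hirr T0 hT0
      refine ⟨some x, (hf_some _ _).2 hx, ?_⟩
      intro S hS hST
      rw [mem_union, mem_image, mem_image] at hS
      rcases hS with ⟨S1, hS1, rfl⟩ | ⟨S1, hS1, rfl⟩
      · rw [hf_some]
        apply hpriv S1 hS1
        constructor
        · intro a ha
          exact (hf_some _ _).1 (hST.1 ((hf_some _ _).2 ha))
        · intro h
          apply hST.2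
          intro b hb
          cases b with
          | none => exact absurd hb (hf_none _)
          | some a => exact (hf_some _ _).2 (h ((hf_some _ _).1 hb))
      · exact absurd (hST.1 (hg_none S1)) (hf_none _)
    · refine ⟨none, hg_none _, ?_⟩
      intro S hS hST
      rw [mem_union, mem_image, mem_image] at hS
      rcases hS with ⟨S1, hS1, rfl⟩ | ⟨S1, hS1, rfl⟩
      · exact hf_none _
      · exfalso
        have h1 := card_lt_card hST
        rw [hg_card, hg_card, (mem_powersetCard.1 hS0).2, (mem_powersetCard.1 hS1).2] at h1
        exact lt_irrefl _ h1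
  · constructor
    · intro x
      cases x with
      | none =>
        obtain ⟨S, -, hS⟩ := exists_subset_card_eq (s := (univ : Finset α)) (n := k)
          (by rw [card_univ]; exact Nat.div_le_self _ _)
        refine ⟨g S, ?_, hg_none S⟩
        rw [mem_union]
        right
        exact mem_image_of_mem _ (mem_powersetCard.2 ⟨subset_univ _, hS⟩)
      | some a =>
        obtain ⟨T, hT, haT⟩ := hsep.1 a
        exact ⟨f T, mem_union_left _ (mem_image_of_mem _ hT), (hf_some _ _).2 haT⟩
    · intro x y hxy
      cases y with
      | none =>
        cases x with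
        | none => exact absurd rfl hxy
        | some a =>
          obtain ⟨S, hSsub, hS⟩ := exists_subset_card_eq (s := (univ.erase a : Finset α)) (n := k)
            (by rw [card_erase_of_mem (mem_univ _), card_univ]; omega)
          refine ⟨g S, ?_, hg_none S, ?_⟩
          · rw [mem_union]
            right
            exact mem_image_of_mem _ (mem_powersetCard.2 ⟨subset_univ _, hS⟩)
          · rw [hg_some]
            intro ha
            exact notMem_erase a _ (hSsub ha)
      | some b =>
        cases x with
        | none =>
          obtain ⟨T, hT, hbT⟩ := hsep.1 b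
          exact ⟨f T, mem_union_left _ (mem_image_of_mem _ hT), (hf_some _ _).2 hbT, hf_none _⟩
        | some a =>
          obtain ⟨T, hT, hbT, haT⟩ := hsep.2 a b (fun h => hxy (by rw [h]))
          exact ⟨f T, mem_union_left _ (mem_image_of_mem _ hT), (hf_some _ _).2 hbT,
            fun h => haT ((hf_some _ _).1 h)⟩
  · rw [card_union_of_disjoint, card_image_of_injective _ hf_inj,
      card_image_of_injective _ hg_inj, card_powersetCard, card_univ]
    rw [disjoint_left]
    intro T h1 h2
    rw [mem_image] at h1 h2
    obtain ⟨S1, -, rfl⟩ := h1
    obtain ⟨S2, -, h⟩ := h2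
    exact hf_none S1 (h ▸ hg_none S2)

end Pool.Agent.Lib.MP_78e117_co
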