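import Mathlib

/-!
# MP_78e117_co: many meet-irreducibles (definitions and statements of the modules)

A family of finite sets in which no member is a union of other members (every member has a private
point) gives a lattice with many meet-irreducible elements.
-/

set_option autoImplicit false

namespace Pool.Agent.Lib.MP_78e117_co

/-- the number of join-irreducible elements (elements which cover exactly one element) -/
noncomputable def numJ (L : Type) [Lattice L] : ℕ := {x : L | ∃! y, y ⋖ x}.ncard

/-- the number of meet-irreducible elements (elements covered by exactly one element) -/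
noncomputable def numM (L : Type) [Lattice L] : ℕ := {x : L | ∃! y, x ⋖ y}.ncard

/-- Some finite lattice with exactly `n` join-irreducibles has at least `t` meet-irreducibles. -/
def Reach (n : ℕ) (t : ℝ) : Prop :=
  ∃ (L : Type) (_ : Lattice L), Finite L ∧ numJ L = n ∧ t ≤ numM L

/-- every member of the family has a point which is in no member that is a proper subset -/
def Irr {α : Type} (G : Finset (Finset α)) : Prop :=
  ∀ T ∈ G, ∃ x ∈ T, ∀ S ∈ G, S ⊂ T → x ∉ S

/-- the family covers and separates the points -/
def Sep {α : Type} (G : Finset (Finset α)) : Prop :=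
  (∀ x : α, ∃ T ∈ G, x ∈ T) ∧ ∀ x y : α, x ≠ y → ∃ T ∈ G, y ∈ T ∧ x ∉ T

/-- (Lat) the lattice of a family -/
def StmtLat : Prop := ∀ (α : Type) [Fintype α] [DecidableEq α] (G : Finset (Finset α)),
  Irr G → Sep G → Reach (Fintype.card α) G.card

/-- (Prod) adding one point -/
def StmtProd : Prop := ∀ (α : Type) [Fintype α] [DecidableEq α] (G : Finset (Finset α)),
  0 < Fintype.card α → Irr G → Sep G → ∃ G' : Finset (Finset (Option α)), Irr G' ∧ Sep G' ∧
    G'.card = G.card + (Fintype.card α).choose (Fintype.card α / 2)

/-! ### the family on `2 m` points: three special points and `N = 2 m - 3` ordinary points -/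

/-- the sum of the labels `0, …, N - 1` of a set of ordinary points, modulo `N + 4` -/
def lab {N : ℕ} (R : Finset (Fin N)) : ZMod (N + 4) := ∑ x ∈ R, ((x : ℕ) : ZMod (N + 4))

/-- the residue classes of the codes: `cod c P` is the class used over the special set `P` -/
def cod {N : ℕ} (c : ZMod (N + 4)) (P : Finset (Fin 3)) : ZMod (N + 4) :=
  if P = ∅ then c + 2 * N + 3 else if P = {0, 1} then c + N else if P = {0, 2} then c + N + 1
  else if P = {1, 2} then c + N + 2 else c

/-- the size of the ordinary part of the main members over the special set `P` -/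
def lev (m : ℕ) (P : Finset (Fin 3)) : ℕ := if P = ∅ then m - 1 else m - P.card

/-- membership in the family, for the set with special part `P` and ordinary part `R` -/
def Mem (m N : ℕ) (c : ZMod (N + 4)) (P : Finset (Fin 3)) (R : Finset (Fin N)) : Prop :=
  R.card = lev m P ∨ (P.card ≠ 1 ∧ R.card + 1 = lev m P ∧ lab R = cod c P)

open Classical in
/-- the family -/
noncomputable def fam (m N : ℕ) (c : ZMod (N + 4)) : Finset (Finset (Fin 3 ⊕ Fin N)) :=
  Finset.univ.filter fun T => Mem m N c T.toLeft T.toRight

/-- (Irr) the family is irreducible and separating -/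
def StmtIrr : Prop := ∀ (m N : ℕ) (c : ZMod (N + 4)), 3 ≤ m → N + 3 = 2 * m →
  Irr (fam m N c) ∧ Sep (fam m N c)

/-- (Count) for some `c` the family is large -/
def StmtCount : Prop := ∀ m N : ℕ, 3 ≤ m → N + 3 = 2 * m → ∃ c : ZMod (N + 4),
  ((m : ℝ) - 1 / 2) * 8 / m * N.choose (m - 1) + (2 / m + (5 * m - 7) / ((m + 1) * (N + 4))) *
    N.choose (m - 1) ≤ (fam m N c).card

end Pool.Agent.Lib.MP_78e117_co
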